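import Pool.Agent.Helper64.LN.GoalsB

/-!
# LN-PRE: the preimage of the curve (project LN of helper64, MP_2b9d24_gt)
-/

set_option autoImplicit false

open Topology Filter Set Metric UpperHalfPlane
open scoped MatrixGroups

namespace Pool.Agent.Helper16.LN

open Pool.Agent.Helper64.LN
open Pool.Agent.Helper64 (PQ.deckG)

/-- a hyperbolic matrix is conjugate to a diagonal one -/
theorem diag_exists (g : SL(2, ℝ)) (hg : 2 < |g 0 0 + g 1 1|) :
    ∃ (M D : SL(2, ℝ)) (k : ℝ), k ≠ 0 ∧ k ^ 2 ≠ 1 ∧ D 0 0 = k ∧ D 0 1 = 0 ∧ D 1 0 = 0 ∧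
      D 1 1 = k⁻¹ ∧ g = M * D * M⁻¹ := by
  have hdet := g.det_coe
  rw [Matrix.det_fin_two] at hdet
  have hT : 4 < (g 0 0 + g 1 1) ^ 2 := by
    have h1 := sq_abs (g 0 0 + g 1 1)
    nlinarith
  by_cases hc : g 1 0 = 0
  · have had : g 0 0 * g 1 1 = 1 := by rw [hc] at hdet; linarith
    have ha : g 0 0 ≠ 0 := by
      intro h
      rw [h] at had
      norm_num at had
    have hinv : g 1 1 = (g 0 0)⁻¹ := by
      field_simp
      linarith
    have hne : g 1 1 - g 0 0 ≠ 0 := by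
      intro h
      have h1 : g 1 1 = g 0 0 := by linarith
      rw [h1] at had hT
      nlinarith
    refine ⟨⟨!![1, g 0 1 / (g 1 1 - g 0 0); 0, 1], by simp [Matrix.det_fin_two]⟩,
      ⟨!![g 0 0, 0; 0, g 1 1], by simp [Matrix.det_fin_two, had]⟩, g 0 0, ha, ?_, rfl, rfl, rfl,
      hinv, ?_⟩
    · intro h
      have h1 : (g 0 0 + g 1 1) ^ 2 = g 0 0 ^ 2 + 2 * (g 0 0 * g 1 1) + g 1 1 ^ 2 := by ring
      have h2 : g 1 1 ^ 2 = 1 := by rw [hinv, inv_pow, h, inv_one]
      rw [h1, h, h2, had] at hT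
      norm_num at hT
    · rw [eq_mul_inv_iff_mul_eq]
      ext i j
      fin_cases i <;> fin_cases j <;>
        simp [Matrix.mul_apply, Fin.sum_univ_two, hc]
      field_simp
      ring
  · obtain ⟨k, hk⟩ : ∃ k : ℝ, k ^ 2 - (g 0 0 + g 1 1) * k + 1 = 0 := by
      refine ⟨((g 0 0 + g 1 1) + Real.sqrt ((g 0 0 + g 1 1) ^ 2 - 4)) / 2, ?_⟩
      have h1 := Real.sq_sqrt (show 0 ≤ (g 0 0 + g 1 1) ^ 2 - 4 by linarith)
      nlinarith
    have hk0 : k ≠ 0 := by
      intro h
      rw [h] at hk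
      norm_num at hk
    have hk1 : k ^ 2 ≠ 1 := by
      intro h
      rw [h] at hk
      have h1 : (g 0 0 + g 1 1) * k = 2 := by linarith
      have h2 : (g 0 0 + g 1 1) ^ 2 * k ^ 2 = 4 := by
        rw [← mul_pow, h1]; norm_num
      rw [h] at h2
      linarith
    have hki : k⁻¹ = g 0 0 + g 1 1 - k := by
      field_simp
      linarith
    have hD : k - k⁻¹ ≠ 0 := by
      intro h
      have h1 : k = k⁻¹ := by linarith
      have h2 : k * k⁻¹ = 1 := mul_inv_cancel₀ hk0
      rw [← h1] at h2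
      exact hk1 (by rw [sq]; exact h2)
    have hD2 : k - (g 0 0 + g 1 1 - k) ≠ 0 := by rwa [hki] at hD
    refine ⟨⟨!![k - g 1 1, (k⁻¹ - g 1 1) / (g 1 0 * (k - k⁻¹)); g 1 0, 1 / (k - k⁻¹)], ?_⟩,
      ⟨!![k, 0; 0, k⁻¹], by simp [Matrix.det_fin_two, hk0]⟩, k, hk0, hk1, rfl, rfl, rfl,
      rfl, ?_⟩
    · rw [Matrix.det_fin_two]
      simp only [Matrix.of_apply, Matrix.cons_val', Matrix.cons_val_zero, Matrix.cons_val_one,
        Matrix.cons_val_fin_one]
      generalize k⁻¹ = k' at *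
      field_simp
      ring
    · rw [eq_mul_inv_iff_mul_eq]
      ext i j
      fin_cases i <;> fin_cases j <;>
        simp [Matrix.mul_apply, Fin.sum_univ_two]
      · nlinarith
      · rw [hki]
        field_simp
        nlinarith
      · ring
      · generalize k⁻¹ = k' at *
        field_simp
        ring

/-- a continuous quasiperiodic function is onto -/
theorem onto_of_scale {y : ℝ → ℝ} (hy : Continuous y) (h0 : ∀ t, 0 < y t) {q : ℝ} (hq : 0 < q)
    (hq1 : q ≠ 1) (hper : ∀ t, y (t + 1) = q * y t) (v : ℝ) (hv : 0 < v) : ∃ t, y t = v := by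
  have hL : Continuous (fun t => Real.log (y t)) := hy.log (fun t => (h0 t).ne')
  have hl : Real.log q ≠ 0 := Real.log_ne_zero_of_pos_of_ne_one hq hq1
  have h1 : ∀ t, Real.log (y (t + 1)) = Real.log (y t) + Real.log q := by
    intro t
    rw [hper, Real.log_mul hq.ne' (h0 t).ne']
    ring
  have h2 : ∀ n : ℤ, Real.log (y n) = Real.log (y 0) + n * Real.log q := by
    intro n
    induction n using Int.induction_on with
    | zero => simp
    | succ i ih =>
      push_cast at ih ⊢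
      rw [h1, ih]
      ring
    | pred i ih =>
      have h3 := h1 ((-i - 1 : ℤ) : ℝ)
      push_cast at ih h3 ⊢
      rw [show -(i : ℝ) - 1 + 1 = -(i : ℝ) by ring, ih] at h3
      linarith
  have h3 : Real.log v ∈ Set.range (fun t => Real.log (y t)) := by
    apply mem_range_of_exists_le_of_exists_ge hL
    · rcases lt_or_gt_of_ne hl with h | h
      · refine ⟨(⌈(Real.log v - Real.log (y 0)) / Real.log q⌉ : ℤ), ?_⟩
        rw [h2]
        have h4 := Int.le_ceil ((Real.log v - Real.log (y 0)) / Real.log q)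
        rw [div_le_iff_of_neg h] at h4
        linarith
      · refine ⟨(⌊(Real.log v - Real.log (y 0)) / Real.log q⌋ : ℤ), ?_⟩
        rw [h2]
        have h4 := Int.floor_le ((Real.log v - Real.log (y 0)) / Real.log q)
        rw [le_div_iff₀ h] at h4
        linarith
    · rcases lt_or_gt_of_ne hl with h | h
      · refine ⟨(⌊(Real.log v - Real.log (y 0)) / Real.log q⌋ : ℤ), ?_⟩
        rw [h2]
        have h4 := Int.floor_le ((Real.log v - Real.log (y 0)) / Real.log q)
        rw [le_div_iff_of_neg h] at h4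
        linarith
      · refine ⟨(⌈(Real.log v - Real.log (y 0)) / Real.log q⌉ : ℤ), ?_⟩
        rw [h2]
        have h4 := Int.le_ceil ((Real.log v - Real.log (y 0)) / Real.log q)
        rw [div_le_iff₀ h] at h4
        linarith
  obtain ⟨t, ht⟩ := h3
  exact ⟨t, Real.log_injOn_pos (h0 t) hv ht⟩

/-- the curve runs over the whole axis -/
theorem axis_range (g : SL(2, ℝ)) (hg : 2 < |g 0 0 + g 1 1|) (ω : C(ℝ, ℍ))
    (hper : ∀ t, ω (t + 1) = g • ω t) (hax : ∀ t, sf g (ω t) = 0) (z : ℍ) (hz : sf g z = 0) :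
    ∃ t, ω t = z := by
  obtain ⟨M, D, k, hk0, hk1, d00, d01, d10, d11, hgM⟩ := diag_exists g hg
  have hki : k⁻¹ - k ≠ 0 := by
    intro h
    have h1 : k⁻¹ = k := by linarith
    apply hk1
    rw [sq]
    nth_rewrite 1 [← h1]
    field_simp
  have hre : ∀ w : ℍ, sf g w = 0 → (M⁻¹ • w).re = 0 := by
    intro w hw
    obtain ⟨t, ht, h1⟩ := sf_smul_pos M D (M⁻¹ • w)
    rw [← hgM, smul_inv_smul, hw] at h1
    have h2 : sf D (M⁻¹ • w) = 0 := by
      rcases mul_eq_zero.1 h1.symm with h3 | h3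
      · exact absurd h3 ht.ne'
      · exact h3
    unfold sf at h2
    rw [d00, d01, d10, d11] at h2
    have h3 : (k⁻¹ - k) * (M⁻¹ • w).re = 0 := by linarith
    rcases mul_eq_zero.1 h3 with h4 | h4
    · exact absurd h4 hki
    · exact h4
  have him : ∀ w : ℍ, (M⁻¹ • (g • w)).im = k ^ 2 * (M⁻¹ • w).im := by
    intro w
    have h1 : M⁻¹ • (g • w) = D • (M⁻¹ • w) := by
      rw [hgM, ← mul_smul, ← mul_smul]
      congr 1
      group
    rw [h1]
    obtain ⟨h2, h3⟩ := smul_eqs D (M⁻¹ • w)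
    rw [d10, d00, d11] at h3
    field_simp at h3
    linarith
  have hcont : Continuous (fun t => (M⁻¹ • ω t).im) := by
    have h1 : Continuous (fun t => M⁻¹ • ω t) := (mh M⁻¹).continuous.comp ω.continuous
    exact UpperHalfPlane.continuous_im.comp h1
  obtain ⟨t, ht⟩ := onto_of_scale hcont (fun t => (M⁻¹ • ω t).im_pos) (q := k ^ 2)
    (by positivity) hk1 (fun t => by rw [hper]; exact him _) _ (M⁻¹ • z).im_pos
  refine ⟨t, ?_⟩
  have h1 : M⁻¹ • ω t = M⁻¹ • z := by
    apply UpperHalfPlane.ext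
    apply Complex.ext
    · exact (hre _ (hax t)).trans (hre _ hz).symm
    · exact ht
  exact (MulAction.injective M⁻¹) h1

theorem goalPRE.{v} : GoalG0.{v} → GoalCR3 → GoalPRE.{v} := by
  intro hG0 hCR3 X _ _ p P u C K γ ω hC
  obtain ⟨g, hgd, hγ⟩ := mem_deck.1 hC.deck
  have hgood := hG0 X (insert p P) u hC.uni
  have hhyp : 2 < |g 0 0 + g 1 1| := by
    obtain ⟨e, he, hcr⟩ := hC.hp
    obtain ⟨d, hd, rfl⟩ := mem_deck.1 he
    rw [hγ] at hcr
    exact (hCR3 _ hgood g hgd d hd hcr).1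
  have hax : ∀ t, sf g (ω t) = 0 := by
    intro t
    have := hC.geo t
    rw [hγ] at this
    exact (ax_mh g _).1 this
  have hA : ax γ = Set.range ω := by
    ext z
    constructor
    · intro hz
      rw [hγ] at hz
      refine axis_range g hhyp ω ?_ hax z ((ax_mh g z).1 hz)
      intro t
      rw [hC.per t, hγ]
      rfl
    · rintro ⟨t, rfl⟩
      exact hC.geo t
  refine ⟨hA, ?_⟩
  intro z
  constructor
  · rintro ⟨w, hw, hwz⟩
    rw [mem_sphere_zero_iff_norm, Complex.norm_eq_one_iff] at hw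
    obtain ⟨θ, hθ⟩ := hw
    have h1 : u (ω (θ / (2 * Real.pi))) = u z := by
      rw [hC.core, ← hwz, ← hθ]
      congr 2
      have : (Real.pi : ℂ) ≠ 0 := by exact_mod_cast Real.pi_ne_zero
      push_cast
      field_simp
    obtain ⟨h, h2, h3⟩ := hC.uni.deck _ _ h1
    refine ⟨mh h, mem_deck.2 ⟨h, h3, rfl⟩, ?_⟩
    rw [← h2, hγ]
    refine (ax_conj h g _).2 ?_
    rw [← hγ]
    exact hC.geo _
  · rintro ⟨F, hF, hz⟩
    obtain ⟨h, h1, rfl⟩ := mem_deck.1 hF
    have h2 : z = mh h (h⁻¹ • z) := by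
      rw [mh_apply, smul_inv_smul]
    rw [h2, hγ, ax_conj, ← hγ, hA] at hz
    obtain ⟨t, ht⟩ := hz
    have h3 : u z = u (ω t) := by
      rw [ht]
      have := h1 (h⁻¹ • z)
      rw [smul_inv_smul] at this
      exact this
    rw [h3, hC.core]
    refine ⟨_, ?_, rfl⟩
    rw [mem_sphere_zero_iff_norm, Complex.norm_eq_one_iff]
    refine ⟨2 * Real.pi * t, ?_⟩
    congr 1
    push_cast
    ring

end Pool.Agent.Helper16.LN
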